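import Mathlib
import Pool.Agent.Work.MP_91103f_fd.Interface

/-!
# Block FR0: there is a frame at every vertex
-/

namespace Pool.TriFold.helper81

open Pool.Agent.Work.MP_91103f_co Pool.TriLev Pool.TriFold

open Classical

noncomputable section

theorem sg_sq {V : Type} (N : Set (Finset V)) (f : Finset V) : sg N f * sg N f = 1 := by
  unfold sg
  split_ifs <;> decide

theorem sg_cases {V : Type} (N : Set (Finset V)) (f : Finset V) : sg N f = 1 ∨ sg N f = -1 := by
  unfold sg
  split_ifs
  · exact Or.inr rfl
  · exact Or.inl rfl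

section

variable {V : Type} {G : SimpleGraph V} {F : Set (Finset V)}

/-- sum of the signs -/
def ssum (F N : Set (Finset V)) (x a b : V) (i : ℕ) : ZMod 6 :=
  ∑ j ∈ Finset.range i, sg N (ph F x a b j)

variable (hT : Tri V G F)
include hT

theorem ssum_deg {N : Set (Finset V)} (hN : FoldCond G F N) {x a b : V} (h : T3 F x a b) :
    ssum F N x a b (G.neighborSet x).ncard = 0 := by
  have h1 : ∀ j, sg N (ph F x a b j) = 1 - 2 * (if ph F x a b j ∈ N then 1 else 0) := by
    intro j
    unfold sg
    split_ifs <;> decide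
  unfold ssum
  rw [Finset.sum_congr rfl (fun j _ => h1 j), Finset.sum_sub_distrib, ← Finset.mul_sum,
    Finset.sum_const, Finset.card_range, Finset.sum_boole]
  have h2 : {f | f ∈ F ∧ f ∈ N ∧ x ∈ f}.ncard =
      ((Finset.range (G.neighborSet x).ncard).filter (fun j => ph F x a b j ∈ N)).card := by
    rw [← Set.ncard_coe_finset]
    symm
    apply Set.ncard_congr (fun j _ => ph F x a b j)
    · intro j hj
      rw [Finset.mem_coe, Finset.mem_filter] at hj
      exact ⟨hT.ph_mem h j, hj.2, by simp [ph]⟩
    · intro i j hi hj he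
      rw [Finset.mem_coe, Finset.mem_filter, Finset.mem_range] at hi hj
      exact hT.ph_inj h hi.1 hj.1 he
    · rintro f ⟨hf1, hf2, hf3⟩
      obtain ⟨k, hk, rfl⟩ := hT.ph_surj h hf1 hf3
      refine ⟨k, ?_, rfl⟩
      rw [Finset.mem_coe, Finset.mem_filter, Finset.mem_range]
      exact ⟨hk, hf2⟩
  obtain ⟨m, -, hm⟩ := hN x
  rw [h2] at hm
  have h3 := congrArg (Int.cast : ℤ → ZMod 6) hm
  push_cast at h3
  rw [nsmul_one, h3]
  have : (6 : ZMod 6) = 0 := by decide
  rw [this, zero_mul]

theorem ssum_per {N : Set (Finset V)} (hN : FoldCond G F N) {x a b : V} (h : T3 F x a b)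
    (i : ℕ) : ssum F N x a b (i + (G.neighborSet x).ncard) = ssum F N x a b i := by
  have h1 := ssum_deg hT hN h
  induction i with
  | zero =>
    rw [zero_add, h1]
    unfold ssum
    rw [Finset.sum_range_zero]
  | succ i ih =>
    have h2 : i + 1 + (G.neighborSet x).ncard = (i + (G.neighborSet x).ncard) + 1 := by ring
    rw [h2]
    unfold ssum at ih ⊢
    rw [Finset.sum_range_succ, Finset.sum_range_succ, ih, hT.ph_per h]

theorem ssum_mod {N : Set (Finset V)} (hN : FoldCond G F N) {x a b : V} (h : T3 F x a b)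
    (i q : ℕ) : ssum F N x a b (i + q * (G.neighborSet x).ncard) = ssum F N x a b i := by
  induction q with
  | zero => rw [zero_mul, add_zero]
  | succ q ih =>
    rw [show i + (q + 1) * (G.neighborSet x).ncard =
      (i + q * (G.neighborSet x).ncard) + (G.neighborSet x).ncard by ring, ssum_per hT hN h, ih]

theorem z_mod {x a b : V} (h : T3 F x a b) (i q : ℕ) :
    z F x a b (i + q * (G.neighborSet x).ncard) = z F x a b i := by
  induction q with
  | zero => rw [zero_mul, add_zero]
  | succ q ih =>
    rw [show i + (q + 1) * (G.neighborSet x).ncard =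
      (i + q * (G.neighborSet x).ncard) + (G.neighborSet x).ncard by ring, hT.z_per h, ih]

theorem ssum_congr {N : Set (Finset V)} (hN : FoldCond G F N) {x a b : V} (h : T3 F x a b)
    {i j : ℕ} (he : z F x a b i = z F x a b j) : ssum F N x a b i = ssum F N x a b j := by
  have hd : 0 < (G.neighborSet x).ncard := by
    have := (hT.deg x).2
    omega
  have ei : i = i % (G.neighborSet x).ncard + i / (G.neighborSet x).ncard *
      (G.neighborSet x).ncard := (Nat.mod_add_div' i _).symm
  have ej : j = j % (G.neighborSet x).ncard + j / (G.neighborSet x).ncard *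
      (G.neighborSet x).ncard := (Nat.mod_add_div' j _).symm
  rw [ei, ej, z_mod hT h, z_mod hT h] at he
  have h1 := (hT.z_cycle h).2.1 _ _ (Nat.mod_lt i hd) (Nat.mod_lt j hd) he
  rw [ei, ej, ssum_mod hT hN h, ssum_mod hT hN h, h1]

end

theorem stmt_FR0 : Stmt_FR0 := by
  intro V G F N hT hN x a b d s h hs
  set c : ZMod 6 := s * sg N (ph F x a b 0) with hc
  have hc2 : c = 1 ∨ c = -1 := by
    rcases hs with rfl | rfl <;> rcases sg_cases N (ph F x a b 0) with h1 | h1 <;>
      rw [hc, h1] <;> decide
  set D : V → ZMod 6 := fun y => if h' : ∃ i, z F x a b i = y then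
    d + c * ssum F N x a b h'.choose else 0 with hD
  have hDz : ∀ i, D (z F x a b i) = d + c * ssum F N x a b i := by
    intro i
    have h' : ∃ j, z F x a b j = z F x a b i := ⟨i, rfl⟩
    simp only [hD]
    rw [dif_pos h', ssum_congr hT hN h h'.choose_spec]
  have hDs : ∀ i, D (z F x a b (i + 1)) = D (z F x a b i) + c * sg N (ph F x a b i) := by
    intro i
    rw [hDz, hDz]
    unfold ssum
    rw [Finset.sum_range_succ]
    ring
  have hpm : ∀ i, c * sg N (ph F x a b i) = 1 ∨ c * sg N (ph F x a b i) = -1 := by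
    intro i
    rcases hc2 with h1 | h1 <;> rcases sg_cases N (ph F x a b i) with h2 | h2 <;>
      rw [h1, h2] <;> decide
  have hidx : ∀ y, G.Adj x y → ∃ k, y = z F x a b (k + 1) := by
    intro y hy
    obtain ⟨k, hk, rfl⟩ := (hT.z_cycle h).2.2 y hy
    refine ⟨k + (G.neighborSet x).ncard - 1, ?_⟩
    rw [show k + (G.neighborSet x).ncard - 1 + 1 = k + (G.neighborSet x).ncard by omega,
      hT.z_per h]
  have hset : ∀ k, ({x, z F x a b (k + 1), z F x a b k} : Finset V) = ph F x a b k := by
    intro k
    unfold ph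
    ext u
    simp only [Finset.mem_insert, Finset.mem_singleton]
    tauto
  refine ⟨D, ⟨?_, ?_⟩, ?_, ?_⟩
  · intro a' b' h'
    obtain ⟨k, rfl⟩ := hidx a' (hT.adj h')
    rcases hT.z_nb h k h' with rfl | rfl
    · have h1 := hDs k
      rcases hpm k with h2 | h2
      · right
        rw [h1, h2]
        ring
      · left
        rw [h1, h2]
        ring
    · have h1 := hDs (k + 1)
      rw [show k + 1 + 1 = k + 2 by ring] at h1
      rcases hpm (k + 1) with h2 | h2
      · left
        rw [h1, h2]
        ring
      · right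
        rw [h1, h2]
        ring
  · intro a' b' c' h1 h2 hne
    obtain ⟨k, rfl⟩ := hidx b' (hT.adj h2)
    have e1 := hDs k
    have e2 := hDs (k + 1)
    rw [show k + 1 + 1 = k + 2 by ring] at e2
    have s1 := sg_sq N (ph F x a b k)
    have s2 := sg_sq N (ph F x a b (k + 1))
    have p1 : ({x, z F x a b k, z F x a b (k + 1)} : Finset V) = ph F x a b k := rfl
    have p2 : ({x, z F x a b (k + 1), z F x a b (k + 2)} : Finset V) = ph F x a b (k + 1) := rfl
    have p3 : ({x, z F x a b (k + 2), z F x a b (k + 1)} : Finset V) = ph F x a b (k + 1) :=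
      hset (k + 1)
    rcases hT.z_nb h k h1.swap' with rfl | rfl <;> rcases hT.z_nb h k h2 with rfl | rfl
    · exact absurd rfl hne
    · rw [p1, p2, e2, e1]
      linear_combination c * s2 - c * s1
    · rw [p3, hset k, e2, e1]
      linear_combination c * s2 - c * s1
    · exact absurd rfl hne
  · have := hDz 0
    rw [z_zero] at this
    rw [this]
    unfold ssum
    rw [Finset.sum_range_zero, mul_zero, add_zero]
  · have := hDz 1
    rw [z_one] at this
    rw [this]
    unfold ssum
    rw [Finset.sum_range_one, hc, mul_assoc, sg_sq, mul_one]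

end

end Pool.TriFold.helper81
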