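import Mathlib
import Pool.Agent.Work.MP_91103f_fd.Interface

/-!
# Block FR7: lifting self-avoiding walks
-/

namespace Pool.TriFold.helper81

open Pool.Agent.Work.MP_91103f_co Pool.TriLev Pool.TriFold

open Classical

noncomputable section

theorem lift_chain {V : Type} {G : SimpleGraph V} {π : V → ℤ × ℤ}
    (h : ∀ x p, T6.Adj (π x) p → ∃ y, G.Adj x y ∧ π y = p) (L : List (ℤ × ℤ)) :
    ∀ x : V, List.IsChain T6.Adj (π x :: L) →
      ∃ L' : List V, List.IsChain G.Adj (x :: L') ∧ L'.map π = L := by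
  induction L with
  | nil =>
    intro x _
    exact ⟨[], by simp, rfl⟩
  | cons p L ih =>
    intro x hc
    rw [List.isChain_cons_cons] at hc
    obtain ⟨y, hxy, hy⟩ := h x p hc.1
    have hc2 := hc.2
    rw [← hy] at hc2
    obtain ⟨L', h1, h2⟩ := ih y hc2
    refine ⟨y :: L', ?_, ?_⟩
    · rw [List.isChain_cons_cons]
      exact ⟨hxy, h1⟩
    · rw [List.map_cons, h2, hy]

theorem stmt_FR7 : Stmt_FR7 := by
  intro V G hfin π h n x
  have hsub : PL T6 (π x) n ⊆ (List.map π) '' PL G x n := by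
    rintro L ⟨h1, h2, h3⟩
    obtain ⟨L', h4, h5⟩ := lift_chain h L x h1
    refine ⟨L', ⟨h4, ?_, ?_⟩, h5⟩
    · apply List.Nodup.of_map π
      rw [List.map_cons, h5]
      exact h2
    · rw [← h3, ← h5, List.length_map]
  have hf := finite_PL hfin n x
  exact (Set.ncard_le_ncard hsub (hf.image _)).trans (Set.ncard_image_le hf)

end

end Pool.TriFold.helper81
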